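import Mathlib
import Pool.Agent.H24.Cops

namespace Pool.Agent.Results.MP_bb83f1_co.ActiveMore

open SimpleGraph Pool.Agent.H24.Cops

def es : List (Fin 14 × Fin 14) :=
  [(0,5),(0,10),(0,11),(0,12),(0,13),(1,4),(1,8),(1,9),(1,12),(1,13),(2,3),(2,6),(2,7),(2,12),
   (2,13),(3,6),(3,7),(3,12),(3,13),(4,8),(4,9),(4,12),(4,13),(5,10),(5,11),(5,12),(5,13),(6,8),
   (6,9),(6,10),(6,11),(7,8),(7,9),(7,10),(7,11),(8,10),(8,11),(9,10),(9,11)]

def adj (u v : Fin 14) : Bool := es.contains (u, v) || es.contains (v, u)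

def G0 : SimpleGraph (Fin 14) where
  Adj u v := adj u v = true
  symm := ⟨by decide +kernel⟩
  loopless := ⟨by decide +kernel⟩

instance : DecidableRel G0.Adj := fun u v => inferInstanceAs (Decidable (adj u v = true))

theorem conn : G0.Connected := by
  have key : ∀ v : Fin 14, v = 2 ∨ G0.Adj 2 v ∨ ∃ w, G0.Adj 2 w ∧ G0.Adj w v := by decide +kernel
  have h : ∀ v, G0.Reachable 2 v := by
    intro v
    rcases key v with rfl | h | ⟨w, h1, h2⟩
    · rfl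
    · exact h.reachable
    · exact h1.reachable.trans h2.reachable
  exact ⟨fun u v => (h u).symm.trans (h v)⟩

theorem nonbip : ¬ G0.IsBipartite := by
  rintro ⟨C⟩
  have h1 := C.valid (show G0.Adj 6 8 by decide +kernel)
  have h2 := C.valid (show G0.Adj 6 10 by decide +kernel)
  have h3 := C.valid (show G0.Adj 8 10 by decide +kernel)
  generalize C 6 = a at *
  generalize C 8 = b at *
  generalize C 10 = c at *
  revert a b c
  decide

def mv (c : Fin 2 → Fin 14) (r : Fin 14) : Fin 2 → Fin 14 :=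
  if G0.Adj (c 0) r then ![r, c 1] else if G0.Adj (c 1) r then ![c 0, r] else
  if r = 13 ∧ G0.Adj (c 0) 2 then ![2, c 1] else if G0.Adj (c 1) 2 then ![c 0, 2] else c

theorem passive : CopsWin (fun a b => a = b ∨ G0.Adj a b) 2 := by
  refine win_of_rank ![6, 12] mv
    (fun c r => c = ![6, 12] ∨ c 0 = r ∨ c 1 = r ∨ G0.Adj (c 0) r ∨ G0.Adj (c 1) r)
    (fun c _ => if c = ![6, 12] then 1 else 0) ?_ (fun _ => Or.inl rfl) ?_
  · intro c r i
    unfold mv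
    split_ifs with h1 h2 h3 h4 <;> fin_cases i <;> simp [*]
  · intro c r h
    by_cases h1 : G0.Adj (c 0) r
    · exact Or.inl ⟨0, Or.inr (by simp [mv, h1])⟩
    by_cases h2 : G0.Adj (c 1) r
    · exact Or.inl ⟨1, Or.inr (by simp [mv, h1, h2])⟩
    rcases h with rfl | h | h | h | h
    · revert r
      decide +kernel
    · exact Or.inl ⟨0, Or.inl h⟩
    · exact Or.inl ⟨1, Or.inl h⟩
    · exact absurd h h1
    · exact absurd h h2

theorem hM : ∀ a, ∃ b, G0.Adj a b := by decide +kernel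

theorem active : ¬ CopsWin G0.Adj 2 := by
  have k0 : ∀ x y : Fin 14, ∃ r, (x ≠ r ∧ ¬ G0.Adj x r) ∧ (y ≠ r ∧ ¬ G0.Adj y r) := by
    decide +kernel
  have k1 : ∀ r x' : Fin 14, (∃ x, G0.Adj x x' ∧ x ≠ r ∧ ¬ G0.Adj x r) →
      ∀ y' : Fin 14, (∃ y, G0.Adj y y' ∧ y ≠ r ∧ ¬ G0.Adj y r) →
      ∃ r', G0.Adj r r' ∧ (x' ≠ r' ∧ ¬ G0.Adj x' r') ∧ (y' ≠ r' ∧ ¬ G0.Adj y' r') := by
    decide +kernel
  refine not_win_of_safe hM (fun c r => ∀ i, c i ≠ r ∧ ¬ G0.Adj (c i) r) ?_ ?_ ?_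
  · intro c
    obtain ⟨r, h1, h2⟩ := k0 (c 0) (c 1)
    exact ⟨r, Fin.forall_fin_two.2 ⟨h1, h2⟩⟩
  · exact fun c r h i => (h i).1
  · intro c r c' h hm
    refine ⟨fun i e => (h i).2 (e ▸ hm i), ?_⟩
    obtain ⟨r', h1, h2, h3⟩ := k1 r (c' 0) ⟨c 0, hm 0, h 0⟩ (c' 1) ⟨c 1, hm 1, h 1⟩
    exact ⟨r', h1, Fin.forall_fin_two.2 ⟨h2, h3⟩⟩

theorem result : ∃ (n : ℕ) (G : SimpleGraph (Fin n)), G.Connected ∧ ¬ G.IsBipartite ∧
    copNumber G < activeCopNumber G :=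
  ⟨14, G0, conn, nonbip, lt_of_le_of_lt (Nat.sInf_le passive) (lt_sInf hM 0 active)⟩

end Pool.Agent.Results.MP_bb83f1_co.ActiveMore
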